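import Pool.Agent.H24.CL.TargetsK
import Pool.Agent.H58.CLV.KC

set_option autoImplicit false

open Finset MeasureTheory Pool.Agent.H24.CL

namespace Pool.Agent.H35.CLK

open Pool.Agent.H58.CLV

theorem sum_min (k r : ℕ) (hr : r ≤ k) : ∑ i ∈ range k, min (i + 1) r = kr k r := by
  have h1 : ∀ d : ℕ, ∑ i ∈ range (r + d), min (i + 1) r = r * (r + 1) / 2 + d * r := by
    intro d
    induction d with
    | zero =>
      have h2 : ∑ i ∈ range r, min (i + 1) r = ∑ i ∈ range r, (i + 1) :=
        Finset.sum_congr rfl fun i hi => by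
          have := Finset.mem_range.1 hi
          omega
      rw [Nat.add_zero, h2, ← Fin.sum_univ_eq_sum_range (fun i => i + 1) r, sum_KN]
      simp [KN]
    | succ n ih =>
      rw [← Nat.add_assoc, Finset.sum_range_succ, ih]
      have h3 : min (r + n + 1) r = r := by omega
      rw [h3]
      ring
  obtain ⟨d, rfl⟩ := Nat.exists_eq_add_of_le hr
  rw [h1 d]
  unfold kr
  have h2 : r * (r + 1) / 2 * 2 = r * (r + 1) := Nat.div_mul_cancel (Nat.even_mul_succ_self r).two_dvd
  have h3 : r * (r - 1) / 2 * 2 = r * (r - 1) := Nat.div_mul_cancel (Nat.even_mul_pred_self r).two_dvd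
  have h4 : r * (r - 1) + r = r * r := by
    rcases r with _ | s
    · rfl
    · simp only [Nat.add_sub_cancel]
      ring
  have h5 : r * (r + d) = r * r + d * r := by ring
  have h6 : r * (r + 1) = r * r + r := by ring
  omega

/-- torsion points with prescribed orders of the coordinates -/
noncomputable def mpt (k q : ℕ) (m : Fin k → ℕ) (n : Fin k → ℕ) : X k :=
  fun i => ((((n i : ℤ) : ℝ) / ((q ^ (m i) : ℕ) : ℝ) : ℝ) : UnitAddCircle)

open Classical in
theorem mem_image_mpt (k q : ℕ) (hq : 1 ≤ q) (m : Fin k → ℕ) (a : X k)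
    (ha : ∀ i, (q ^ (m i)) • a i = 0) :
    a ∈ ((Fintype.piFinset fun i : Fin k => range (q ^ (m i))).image (mpt k q m) :
      Finset (X k)) := by
  rw [Finset.mem_image]
  have h2 : ∀ i : Fin k, ∃ n : ℕ, n < q ^ (m i) ∧
      a i = ((((n : ℤ) : ℝ) / ((q ^ (m i) : ℕ) : ℝ) : ℝ) : UnitAddCircle) := by
    intro i
    have hQ : 0 < q ^ (m i) := by positivity
    obtain ⟨s, hm⟩ := (nsmul_zero_iff (a i) _ hQ).1 (ha i)
    have hQ' : (0 : ℤ) < ((q ^ (m i) : ℕ) : ℤ) := by exact_mod_cast hQ
    have h3 := Int.emod_lt_of_pos s hQ'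
    have h4 := Int.emod_nonneg s hQ'.ne'
    refine ⟨(s % ((q ^ (m i) : ℕ) : ℤ)).toNat, ?_, ?_⟩
    · have h5 : (((s % ((q ^ (m i) : ℕ) : ℤ)).toNat : ℕ) : ℤ) < ((q ^ (m i) : ℕ) : ℤ) := by
        rw [Int.toNat_of_nonneg h4]
        exact h3
      exact_mod_cast h5
    · rw [hm, Pool.Agent.H58.CLV.div_eq_iff _ _ _ hQ, Int.toNat_of_nonneg h4]
      exact Int.dvd_self_sub_emod
  choose n hn hn2 using h2
  refine ⟨n, ?_, ?_⟩
  · rw [Fintype.mem_piFinset]
    exact fun i => Finset.mem_range.2 (hn i)
  · funext i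
    exact (hn2 i).symm

theorem pf_KR (_h : T_TO) : TK_KR := by
  classical
  intro k q b r hq hr Y hY
  obtain ⟨N, hN1, hN2⟩ := MB_inv k b
  set m : Fin k → ℕ := fun i => min (i.val + 1) r with hm
  have hinj : Set.InjOn (fun a : X k => TM (MB k b) a) (Y : Set (X k)) := by
    intro a _ a' _ h
    have h1 := congrArg (TM N) h
    simp only [TM_mul, hN2, TM_one] at h1
    exact h1
  have hmap : ∀ y ∈ Y, (fun a : X k => TM (MB k b) a) y ∈
      ((Fintype.piFinset fun i : Fin k => range (q ^ (m i))).image (mpt k q m) :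
        Finset (X k)) := by
    intro y hy
    obtain ⟨h1, h2⟩ := hY y hy
    apply mem_image_mpt k q hq m
    intro i
    rcases le_total (i.val + 1) r with h3 | h3
    · have h4 : m i = i.val + 1 := min_eq_left h3
      rw [h4]
      have h5 := phi_eq q b y i
      rw [h2] at h5
      exact h5.symm
    · have h4 : m i = r := min_eq_right h3
      rw [h4]
      have h5 : (q ^ r) • y = 0 := by
        funext j
        exact (mem_H k q r y).1 h1 j
      have h6 : (q ^ r) • TM (MB k b) y = 0 := by
        rw [← TM_smul, h5]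
        funext j
        simp [TM]
      exact congrFun h6 i
  calc Y.card ≤ ((Fintype.piFinset fun i : Fin k => range (q ^ (m i))).image (mpt k q m) :
        Finset (X k)).card := Finset.card_le_card_of_injOn _ hmap hinj
    _ ≤ (Fintype.piFinset fun i : Fin k => range (q ^ (m i))).card := Finset.card_image_le
    _ = q ^ kr k r := by
      rw [Fintype.card_piFinset]
      simp only [Finset.card_range]
      rw [Finset.prod_pow_eq_pow_sum, hm, Fin.sum_univ_eq_sum_range (fun i => min (i + 1) r) k,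
        sum_min k r hr]

end Pool.Agent.H35.CLK
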